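import Pool.Graph.R_pool_sql_team_seeded_1acbe0a2.Results.MP_3d048b_an.LInftyCopies
import Pool.Agent.H45.PE.A

/-!
# Pisier's question on the dimension of `ℓ_∞^N`, for nonlinear maps and for finite sets

Let `X` be an `n`-dimensional real normed space, `n ≥ 2`, of cotype `q` with constant `K`. The
question is whether `N ≥ exp (c n)`, `c = c(q, K)`, if `X` 2-embeds linearly into `ℓ_∞^N`. We show
this for all distortions `D`, with an explicit `c = c(q, K, D)`, and for nonlinear maps: the unit
ball of `X` contains a finite set `F` such that already a map from `F` to `ℓ_∞^N` which has the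
distortion `D` up to a small additive error needs `N ≥ exp (c n)`. So the same bound holds for
Lipschitz embeddings of `X` or of its unit ball and for quasi-isometric embeddings of `X` or of a net
of `X`. There are corresponding nonlinear forms of the theorem without cotype (`X` contains copies of
`ℓ_∞^k`) and of the characterisation of the spaces of trivial cotype.

The linear case is the library theorem `LInftyCopies`. A map with a small error on every finite set
gives, by compactness, a bi-Lipschitz map with the same constants on all of `X`, and its derivative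
at a point, which exists by Rademacher's theorem, is a linear embedding with the same constants.
-/

set_option autoImplicit false

namespace Pool.Agent.Results.MP_3d048b_an.MetricEmbeddings

/-- `X` has Rademacher cotype `q` with constant `K`. -/
def HasCotype (X : Type) [NormedAddCommGroup X] [NormedSpace ℝ X] (q K : ℝ) : Prop :=
  ∀ (m : ℕ) (x : Fin m → X),
    (∑ i, ‖x i‖ ^ q) ^ (1/q) ≤
      K * Real.sqrt ((∑ ε : Fin m → Bool, ‖∑ i, (if ε i then (1:ℝ) else -1) • x i‖ ^ 2) / 2 ^ m)

/-- `X` embeds linearly into `ℓ_∞^N` (the space `Fin N → ℝ` with the maximum norm) with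
distortion `D`. -/
def Embeds (X : Type) [NormedAddCommGroup X] [NormedSpace ℝ X] (N : ℕ) (D : ℝ) : Prop :=
  ∃ T : X →ₗ[ℝ] (Fin N → ℝ), ∀ x, ‖x‖ ≤ ‖T x‖ ∧ ‖T x‖ ≤ D * ‖x‖

/-- The (nonlinear) map `f` has the distortion `D` on the set `S`, up to the additive error `ε`.
Only the values of `f` on `S` matter. -/
def DistortionOn {X : Type} [NormedAddCommGroup X] (D ε : ℝ) (S : Set X) {N : ℕ}
    (f : X → Fin N → ℝ) : Prop :=
  ∀ x ∈ S, ∀ y ∈ S, ‖x - y‖ - ε ≤ ‖f x - f y‖ ∧ ‖f x - f y‖ ≤ D * ‖x - y‖ + ε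

/-- The unit ball of `X` has a finite subset `F` such that, for some `ε > 0`, every map which has the
distortion `D` on `F` up to the additive error `ε` goes to an `ℓ_∞^N` with `N ≥ B`. -/
def FiniteObstruction (X : Type) [NormedAddCommGroup X] (D B : ℝ) : Prop :=
  ∃ F : Finset X, (∀ x ∈ F, ‖x‖ ≤ 1) ∧ ∃ ε : ℝ, 0 < ε ∧
    ∀ (N : ℕ) (f : X → Fin N → ℝ), DistortionOn D ε (F : Set X) f → B ≤ N

/-- Pisier's question, for nonlinear maps and for finite sets. There is an absolute constant
`A ≥ 1` with the following properties, where `n` is the dimension of `X`.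

1. If `X` has cotype `q` with constant `K`, then `N ≥ exp (c n)`, `c = c(q, K, D)` explicit, for
linear embeddings into `ℓ_∞^N` with distortion `D` (Q1 is the case `D = 2`), for maps on a coarsely
dense subset `S` of `X` which have the distortion `D` up to any additive error `C`, and there is a
finite obstruction in the unit ball.
2. and 3. Without cotype: `X` contains copies (almost isometric copies) of `ℓ_∞^k`, or there is a
finite obstruction.
4. A normed space `Z` contains the spaces `ℓ_∞^k` uniformly if and only if for every `c > 0` it has a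
subspace `E` of finite dimension at least two such that all finite subsets of the unit ball of `E`
can be mapped to one `ℓ_∞^N`, `N < exp (c dim E)`, with the distortion `D` up to arbitrarily small
additive errors. -/
theorem result : ∃ A : ℝ, 1 ≤ A ∧
    (∀ (q K D : ℝ), 2 ≤ q →
      ∀ (X : Type) [NormedAddCommGroup X] [NormedSpace ℝ X] [FiniteDimensional ℝ X],
        2 ≤ Module.finrank ℝ X → HasCotype X q K →
        (∀ N : ℕ, Embeds X N D →
          Real.exp (Real.exp (-(q * (A * K * D) ^ q * Real.log (A * K * D))) *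
            Module.finrank ℝ X) ≤ N) ∧
        (∀ (S : Set X) (R C : ℝ) (N : ℕ) (f : X → Fin N → ℝ),
          (∀ x, ∃ s ∈ S, ‖x - s‖ ≤ R) → DistortionOn D C S f →
          Real.exp (Real.exp (-(q * (A * K * D) ^ q * Real.log (A * K * D))) *
            Module.finrank ℝ X) ≤ N) ∧
        FiniteObstruction X D
          (Real.exp (Real.exp (-(q * (A * K * D) ^ q * Real.log (A * K * D))) *
            Module.finrank ℝ X))) ∧
    (∀ (k : ℕ) (D : ℝ), 1 ≤ k →
      ∀ (X : Type) [NormedAddCommGroup X] [NormedSpace ℝ X] [FiniteDimensional ℝ X],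
        2 ≤ Module.finrank ℝ X →
        (∃ y : Fin k → X, ∀ a : Fin k → ℝ,
          ‖a‖ ≤ ‖∑ i, a i • y i‖ ∧ ‖∑ i, a i • y i‖ ≤ A * D * ‖a‖) ∨
        FiniteObstruction X D
          (Real.exp (Real.exp (-(A * (D * k) * (1 + Real.log (D * k)))) *
            Module.finrank ℝ X))) ∧
    (∀ (k : ℕ) (D ε : ℝ), 1 ≤ k → 0 < ε → ε ≤ 1 →
      ∀ (X : Type) [NormedAddCommGroup X] [NormedSpace ℝ X] [FiniteDimensional ℝ X],
        2 ≤ Module.finrank ℝ X →
        (∃ y : Fin k → X, ∀ a : Fin k → ℝ,
          (1 - ε) * ‖a‖ ≤ ‖∑ i, a i • y i‖ ∧ ‖∑ i, a i • y i‖ ≤ ‖a‖) ∨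
        FiniteObstruction X D
          (Real.exp (Real.exp (-Real.exp (A * (1 + Real.log D) * (1 + Real.log k) / ε)) *
            Module.finrank ℝ X))) ∧
    (∀ (Z : Type) [NormedAddCommGroup Z] [NormedSpace ℝ Z] (D : ℝ), 1 < D →
      ((∀ (k : ℕ) (ε : ℝ), 0 < ε → ∃ y : Fin k → Z, ∀ a : Fin k → ℝ,
          (1 - ε) * ‖a‖ ≤ ‖∑ i, a i • y i‖ ∧ ‖∑ i, a i • y i‖ ≤ ‖a‖) ↔
        ∀ c : ℝ, 0 < c → ∃ (E : Submodule ℝ Z) (N : ℕ), FiniteDimensional ℝ E ∧
          2 ≤ Module.finrank ℝ E ∧ (N : ℝ) < Real.exp (c * Module.finrank ℝ E) ∧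
          ∀ F : Finset E, (∀ x ∈ F, ‖x‖ ≤ 1) → ∀ ε : ℝ, 0 < ε →
            ∃ f : E → Fin N → ℝ, DistortionOn D ε (F : Set E) f)) := by
  obtain ⟨A, hA, h1, h2, h3, h4⟩ := Pool.Agent.Results.MP_3d048b_an.LInftyCopies.result
  refine ⟨A, hA, ?_, ?_, ?_, ?_⟩
  · intro q K D hq X _ _ _ hn hcot
    have hlin : ∀ N : ℕ, Embeds X N D →
        Real.exp (Real.exp (-(q * (A * K * D) ^ q * Real.log (A * K * D))) *
          Module.finrank ℝ X) ≤ N := fun N hN => h1 q K D hq X N hn hcot hN
    refine ⟨hlin, ?_, Pool.Agent.H45.PE.obstruction hlin⟩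
    intro S R C N f hS hf
    obtain ⟨C', f', hf'⟩ := Pool.Agent.H45.PE.coarse_of_net hS hf
    obtain ⟨g, hg⟩ := Pool.Agent.H45.PE.bilip_of_near (Pool.Agent.H45.PE.near_of_coarse hf')
    exact hlin N (Pool.Agent.H45.PE.linear_of_bilip g hg)
  · intro k D hk X _ _ _ hn
    by_cases hy : ∃ y : Fin k → X, ∀ a : Fin k → ℝ,
          ‖a‖ ≤ ‖∑ i, a i • y i‖ ∧ ‖∑ i, a i • y i‖ ≤ A * D * ‖a‖
    · exact Or.inl hy
    · right
      refine Pool.Agent.H45.PE.obstruction fun N hN => ?_
      by_contra hcon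
      exact hy (h2 k D hk X N hn hN (not_le.1 hcon))
  · intro k D ε hk hε hε1 X _ _ _ hn
    by_cases hy : ∃ y : Fin k → X, ∀ a : Fin k → ℝ,
          (1 - ε) * ‖a‖ ≤ ‖∑ i, a i • y i‖ ∧ ‖∑ i, a i • y i‖ ≤ ‖a‖
    · exact Or.inl hy
    · right
      refine Pool.Agent.H45.PE.obstruction fun N hN => ?_
      by_contra hcon
      exact hy (h3 k D ε hk hε hε1 X N hn hN (not_le.1 hcon))
  · intro Z _ _ D hD
    rw [h4 Z D hD]
    constructor
    · intro h c hc
      obtain ⟨E, N, hE, hn, ⟨T, hT⟩, hN⟩ := h c hc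
      refine ⟨E, N, hE, hn, hN, fun F _ ε hε => ⟨T, fun x _ y _ => ?_⟩⟩
      have := hT (x - y)
      rw [map_sub] at this
      constructor <;> linarith [this.1, this.2]
    · intro h c hc
      obtain ⟨E, N, hE, hn, hN, hF⟩ := h c hc
      obtain ⟨g, hg⟩ := Pool.Agent.H45.PE.bilip_of_near (Pool.Agent.H45.PE.near_scale hF)
      exact ⟨E, N, hE, hn, Pool.Agent.H45.PE.linear_of_bilip g hg, hN⟩

end Pool.Agent.Results.MP_3d048b_an.MetricEmbeddings
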